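import Mathlib
import Pool.Agent.Lib.helper23.UdC

namespace Pool.Agent.Results.MP_26ac3f_lc.InterPi03

open Filter Topology

/-- Uniform distribution modulo one. -/
def UDModOne (u : ℕ → ℝ) : Prop :=
  ∀ a b : ℝ, 0 ≤ a → a ≤ b → b ≤ 1 → Tendsto (fun N : ℕ =>
    (((Finset.range N).filter (fun n => a ≤ Int.fract (u n) ∧ Int.fract (u n) < b)).card : ℝ)
      / (N : ℝ)) atTop (𝓝 (b - a))

/-- The set `N(α)`. -/
def Nrm (α : ℝ) : Set ℝ := {ξ | UDModOne fun n => ξ * α ^ n}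

/-- Pisot numbers. -/
def IsPisot (θ : ℝ) : Prop :=
  1 < θ ∧ IsIntegral ℤ θ ∧
    ∀ z : ℂ, Polynomial.aeval z (minpoly ℚ θ) = 0 → z ≠ (θ : ℂ) → ‖z‖ < 1

/-- The set `I`. -/
def I : Set ℝ := ⋂ α ∈ {α : ℝ | IsPisot |α|}, Nrm α

/-- The boldface class `Π⁰₃`: countable intersections of countable unions of closed sets. -/
def IsPi03 {X : Type} [TopologicalSpace X] (A : Set X) : Prop :=
  ∃ F : ℕ → ℕ → Set X, (∀ i j, IsClosed (F i j)) ∧ A = ⋂ i, ⋃ j, F i j

/-- `Π⁰₃`-completeness. -/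
def Pi03Complete (A : Set ℝ) : Prop :=
  IsPi03 A ∧ ∀ (Y : Type) [TopologicalSpace Y] [PolishSpace Y],
    TopologicalSpace.IsTopologicalBasis {s : Set Y | IsClopen s} →
    ∀ B : Set Y, IsPi03 B → ∃ f : Y → ℝ, Continuous f ∧ B = f ⁻¹' A

theorem pisot_two : IsPisot |(2 : ℝ)| := by
  rw [abs_two]
  refine ⟨by norm_num, ?_, fun z hz hne => ?_⟩
  · have := isIntegral_algebraMap (R := ℤ) (A := ℝ) (x := 2)
    simpa using this
  · have e : minpoly ℚ (2 : ℝ) = Polynomial.X - Polynomial.C 2 := by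
      have := minpoly.eq_X_sub_C ℝ (2 : ℚ)
      simpa using this
    rw [e] at hz
    simp only [map_sub, Polynomial.aeval_X, Polynomial.aeval_C, sub_eq_zero] at hz
    exact absurd (by rw [hz]; simp) hne

theorem enum : ∃ β : ℕ → ℝ, β 0 = 2 ∧ {α : ℝ | IsPisot |α|} = Set.range β := by
  have hc : {α : ℝ | IsPisot |α|}.Countable := by
    refine (Algebraic.countable ℤ ℝ).mono fun α hα => ?_
    have h := hα.2.1
    rcases abs_choice α with e | e
    · rw [e] at h; exact h.isAlgebraic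
    · rw [e] at h; simpa using h.neg.isAlgebraic
  obtain ⟨f, hf⟩ := hc.exists_eq_range ⟨2, pisot_two⟩
  refine ⟨fun n => Nat.casesOn n 2 f, rfl, ?_⟩
  ext α
  constructor
  · intro h
    rw [hf] at h
    obtain ⟨n, rfl⟩ := h
    exact ⟨n + 1, rfl⟩
  · rintro ⟨n, rfl⟩
    cases n with
    | zero => exact pisot_two
    | succ n => rw [hf]; exact ⟨n, rfl⟩

theorem result : Pi03Complete I := by
  obtain ⟨β, h0, hβ⟩ := enum
  have hI : ∀ ξ, ξ ∈ I ↔ ∀ i, ξ ∈ Nrm (β i) := fun ξ => by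
    simp only [I, hβ, Set.mem_iInter, Set.forall_mem_range]
  have h1 : ∀ i, 1 < |β i| := fun i => by
    have : β i ∈ {α : ℝ | IsPisot |α|} := hβ ▸ Set.mem_range_self i
    exact this.1
  constructor
  · choose F hF1 hF2 using fun i => Pool.Agent.Lib.helper23.UdA.pi03
      (fun (ξ : ℝ) n => ξ * β i ^ n) (fun n => by fun_prop)
    refine ⟨fun m j => F (Nat.unpair m).1 (Nat.unpair m).2 j, fun m j => hF1 _ _ _, ?_⟩
    ext ξ
    rw [hI, Set.iInter_unpair (fun i i' => ⋃ j, F i i' j), Set.mem_iInter]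
    exact forall_congr' fun i => by rw [← hF2 i]; rfl
  · rintro Y _ _ hY B ⟨G, hG, rfl⟩
    obtain ⟨f, f1, f2, f3⟩ := Pool.Agent.Lib.helper23.UdC.hard'
      (Pool.Agent.Lib.helper23.UdA.closed_clopen hY) G hG β h1
    exact ⟨f, f1, Set.ext fun y => ⟨fun h => (hI _).2 (f2 y h), fun h => f3 y ((hI _).1 h 0)⟩⟩

end Pool.Agent.Results.MP_26ac3f_lc.InterPi03
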